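import Pool.Agent.Helper75.FU.StP

/-!
# Project FU (MP_b1e6de_al), module P5: lifting invertible matrices
-/

set_option autoImplicit false

namespace Pool.Agent.Helper91.FU

open Polynomial Pool.Agent.Helper75.FU

universe u

theorem unit_monic {C : Type u} [CommRing C] (p : C[X]) (hp : p.Monic) : IsUnit (toRX C p) :=
  IsLocalization.map_units (RX C) (⟨p, hp⟩ : monS C)

theorem unit_lead {C : Type u} [CommRing C] (p : C[X]) (hp : IsUnit p.leadingCoeff) :
    IsUnit (toRX C p) := by
  obtain ⟨c, hc⟩ := hp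
  have h1 : (Polynomial.C (↑c⁻¹ : C) * p).Monic := by
    apply monic_C_mul_of_mul_leadingCoeff_eq_one
    rw [← hc]
    exact c.inv_mul
  have h2 := unit_monic _ h1
  rw [map_mul] at h2
  exact isUnit_of_mul_isUnit_right h2

theorem mapC_le {C : Type u} [CommRing C] [IsLocalRing C] (p : C[X])
    (hp : p ∈ (IsLocalRing.maximalIdeal C).map (Polynomial.C)) : toRX C p ∈ mRX C := by
  have h1 : mRX C = ((IsLocalRing.maximalIdeal C).map (Polynomial.C)).map (toRX C) := by
    unfold mRX
    rw [Ideal.map_map]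
  rw [h1]
  exact Ideal.mem_map_of_mem _ hp

/-- a polynomial which is not in the extended maximal ideal is congruent to one with a unit leading
coefficient -/
theorem exists_lead {C : Type u} [CommRing C] [IsLocalRing C] : ∀ (N : ℕ) (p : C[X]),
    p.support.card ≤ N → p ∉ (IsLocalRing.maximalIdeal C).map (Polynomial.C) →
    ∃ q : C[X], IsUnit q.leadingCoeff ∧ p - q ∈ (IsLocalRing.maximalIdeal C).map (Polynomial.C) := by
  intro N
  induction N with
  | zero =>
    intro p hN hp
    exfalso
    apply hp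
    have : p = 0 := by
      rw [Nat.le_zero, Finset.card_eq_zero, Polynomial.support_eq_empty] at hN
      exact hN
    rw [this]
    exact Ideal.zero_mem _
  | succ N ih =>
    intro p hN hp
    by_cases hl : IsUnit p.leadingCoeff
    · exact ⟨p, hl, by rw [sub_self]; exact Ideal.zero_mem _⟩
    · have hl2 : p.leadingCoeff ∈ IsLocalRing.maximalIdeal C := (IsLocalRing.mem_maximalIdeal _).2 hl
      have h0 : p ≠ 0 := by
        rintro rfl
        exact hp (Ideal.zero_mem _)
      have h1 : p = p.eraseLead + Polynomial.monomial p.natDegree p.leadingCoeff :=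
        (Polynomial.eraseLead_add_monomial_natDegree_leadingCoeff p).symm
      have h2 : Polynomial.monomial p.natDegree p.leadingCoeff ∈
          (IsLocalRing.maximalIdeal C).map (Polynomial.C) := by
        rw [← Polynomial.C_mul_X_pow_eq_monomial]
        exact Ideal.mul_mem_right _ _ (Ideal.mem_map_of_mem _ hl2)
      have h3 : p.eraseLead ∉ (IsLocalRing.maximalIdeal C).map (Polynomial.C) := by
        intro h
        apply hp
        rw [h1]
        exact Ideal.add_mem _ h h2
      obtain ⟨q, hq1, hq2⟩ := ih p.eraseLead (by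
        have := Polynomial.eraseLead_support_card_lt h0
        omega) h3
      refine ⟨q, hq1, ?_⟩
      have h4 : p - q = (p.eraseLead - q) + Polynomial.monomial p.natDegree p.leadingCoeff := by
        nth_rewrite 1 [h1]
        ring
      rw [h4]
      exact Ideal.add_mem _ hq2 h2

/-- every element outside the extended maximal ideal is congruent to a unit -/
theorem exists_unit {C : Type u} [CommRing C] [IsLocalRing C] (x : RX C) (hx : x ∉ mRX C) :
    ∃ w : RX C, IsUnit w ∧ x - w ∈ mRX C := by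
  obtain ⟨⟨p, s⟩, hps⟩ := IsLocalization.surj (monS C) x
  have hs : IsUnit (toRX C (s : C[X])) := unit_monic _ s.2
  obtain ⟨t, ht⟩ := hs.exists_right_inv
  have hxp : x = toRX C p * t := by
    have h1 : x * toRX C (s : C[X]) = toRX C p := hps
    calc x = x * (toRX C (s : C[X]) * t) := by rw [ht, mul_one]
      _ = _ := by rw [← mul_assoc, h1]
  have hp : p ∉ (IsLocalRing.maximalIdeal C).map (Polynomial.C) := by
    intro h
    apply hx
    rw [hxp]
    exact Ideal.mul_mem_right _ _ (mapC_le p h)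
  obtain ⟨q, hq1, hq2⟩ := exists_lead p.support.card p le_rfl hp
  refine ⟨toRX C q * t, (unit_lead q hq1).mul ?_, ?_⟩
  · exact IsUnit.of_mul_eq_one _ (by rw [mul_comm]; exact ht)
  · have h1 : x - toRX C q * t = toRX C (p - q) * t := by
      rw [hxp, map_sub]
      ring
    rw [h1]
    exact Ideal.mul_mem_right _ _ (mapC_le _ hq2)

theorem one_notMem {C : Type u} [CommRing C] [IsLocalRing C] : (1 : RX C) ∉ mRX C := by
  intro h
  let k := IsLocalRing.ResidueField C
  let g : C[X] →+* FractionRing k[X] :=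
    (algebraMap k[X] (FractionRing k[X])).comp (Polynomial.mapRingHom (IsLocalRing.residue C))
  have hg : ∀ y : monS C, IsUnit (g y) := by
    rintro ⟨y, hy⟩
    have hy' : y.Monic := hy
    have h1 : (y.map (IsLocalRing.residue C)) ≠ 0 := (hy'.map _).ne_zero
    have h2 : g y ≠ 0 := by
      show algebraMap k[X] (FractionRing k[X]) (y.map (IsLocalRing.residue C)) ≠ 0
      intro h3
      apply h1
      exact (IsFractionRing.injective k[X] (FractionRing k[X])) (by rw [h3, map_zero])
    exact isUnit_iff_ne_zero.2 h2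
  let ψ : RX C →+* FractionRing k[X] := IsLocalization.lift (M := monS C) hg
  have h1 : mRX C ≤ RingHom.ker ψ := by
    unfold mRX
    rw [Ideal.map_le_iff_le_comap]
    intro m hm
    rw [Ideal.mem_comap, RingHom.mem_ker]
    show ψ (algebraMap C[X] (RX C) (Polynomial.C m)) = 0
    rw [IsLocalization.lift_eq]
    show algebraMap k[X] (FractionRing k[X]) ((Polynomial.C m).map (IsLocalRing.residue C)) = 0
    rw [Polynomial.map_C, (IsLocalRing.residue_eq_zero_iff m).2 hm, map_zero, map_zero]
  have h2 : ψ 1 = 0 := RingHom.mem_ker.1 (h1 h)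
  rw [map_one] at h2
  exact one_ne_zero h2

theorem mRX_max {C : Type u} [CommRing C] [IsLocalRing C] : (mRX C).IsMaximal := by
  rw [Ideal.isMaximal_iff]
  refine ⟨one_notMem, ?_⟩
  intro J x hJ hx hxJ
  obtain ⟨w, hw, hxw⟩ := exists_unit x hx
  have h1 : w ∈ J := by
    have : w = x - (x - w) := by ring
    rw [this]
    exact J.sub_mem hxJ (hJ hxw)
  rw [(Ideal.eq_top_of_isUnit_mem J h1 hw)]
  exact Submodule.mem_top

/-- lifting invertible matrices -/
theorem lift_matrix {D : Type u} [CommRing D] {K : Type u} [Field K] (π : D →+* K)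
    (hπ : Function.Surjective π) (hu : ∀ x : D, π x ≠ 0 → ∃ w : D, IsUnit w ∧ π w = π x) (r : ℕ)
    (M : Matrix (Fin r) (Fin r) K) (hM : M.det ≠ 0) :
    ∃ H : Matrix (Fin r) (Fin r) D, IsUnit H.det ∧ H.map π = M := by
  refine Matrix.diagonal_transvection_induction_of_det_ne_zero
    (fun M => ∃ H : Matrix (Fin r) (Fin r) D, IsUnit H.det ∧ H.map π = M) M hM ?_ ?_ ?_
  · intro d hd
    rw [Matrix.det_diagonal, Finset.prod_ne_zero_iff] at hd
    have h1 : ∀ i, ∃ w : D, IsUnit w ∧ π w = d i := by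
      intro i
      obtain ⟨x, hx⟩ := hπ (d i)
      obtain ⟨w, hw1, hw2⟩ := hu x (by rw [hx]; exact hd i (Finset.mem_univ i))
      exact ⟨w, hw1, hw2.trans hx⟩
    choose w hw1 hw2 using h1
    refine ⟨Matrix.diagonal w, ?_, ?_⟩
    · rw [Matrix.det_diagonal]
      exact IsUnit.prod_univ_iff.2 hw1
    · rw [Matrix.diagonal_map (map_zero π)]
      congr 1
      funext i
      exact hw2 i
  · intro t
    obtain ⟨c, hc⟩ := hπ t.c
    refine ⟨Matrix.transvection t.i t.j c, ?_, ?_⟩
    · rw [Matrix.det_transvection_of_ne _ _ t.hij]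
      exact isUnit_one
    · unfold Matrix.TransvectionStruct.toMatrix Matrix.transvection
      rw [Matrix.map_add _ (map_add π), Matrix.map_one _ (map_zero π) (map_one π), Matrix.map_single, hc]
  · rintro A B - - ⟨H, hH1, rfl⟩ ⟨H', hH1', rfl⟩
    refine ⟨H * H', ?_, ?_⟩
    · rw [Matrix.det_mul]
      exact hH1.mul hH1'
    · rw [Matrix.map_mul]

theorem hP5 : StP5.{u} := by
  intro C _ _ r γ hγ hrow
  have hmax : (mRX C).IsMaximal := mRX_max
  let _ : Field (RX C ⧸ mRX C) := Ideal.Quotient.field (mRX C)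
  let π : RX C →+* (RX C ⧸ mRX C) := Ideal.Quotient.mk (mRX C)
  have hπ : Function.Surjective π := Ideal.Quotient.mk_surjective
  have hu : ∀ x : RX C, π x ≠ 0 → ∃ w : RX C, IsUnit w ∧ π w = π x := by
    intro x hx
    obtain ⟨w, hw1, hw2⟩ := exists_unit x (fun h => hx (Ideal.Quotient.eq_zero_iff_mem.2 h))
    refine ⟨w, hw1, ?_⟩
    exact (Ideal.Quotient.eq.2 hw2).symm
  have hdet : (γ.map π).det ≠ 0 := by
    have h1 : (γ.map π).det = π γ.det := (RingHom.map_det π γ).symm
    rw [h1]
    exact (hγ.map π).ne_zero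
  have hdetu : IsUnit (γ.map π).det := isUnit_iff_ne_zero.2 hdet
  have hrowK : ∀ j, (γ.map π) (Sum.inl ()) j =
      (1 : Matrix (Unit ⊕ Fin r) (Unit ⊕ Fin r) (RX C ⧸ mRX C)) (Sum.inl ()) j := by
    intro j
    have h1 : π (γ (Sum.inl ()) j) = π ((1 : Matrix (Unit ⊕ Fin r) (Unit ⊕ Fin r) (RX C)) (Sum.inl ()) j) :=
      Ideal.Quotient.eq.2 (hrow j)
    show π (γ (Sum.inl ()) j) = _
    rw [h1, Matrix.one_apply, Matrix.one_apply]
    split_ifs
    · exact map_one π
    · exact map_zero π
  obtain ⟨δK, hδK⟩ : ∃ δK, δK = (γ.map π)⁻¹ := ⟨_, rfl⟩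
  have h1 : γ.map π * δK = 1 := by rw [hδK]; exact Matrix.mul_nonsing_inv _ hdetu
  have hδrow : ∀ j, δK (Sum.inl ()) j =
      (1 : Matrix (Unit ⊕ Fin r) (Unit ⊕ Fin r) (RX C ⧸ mRX C)) (Sum.inl ()) j := by
    intro j
    rw [← h1, Matrix.mul_apply]
    rw [Finset.sum_congr rfl fun i _ => by rw [hrowK i]]
    rw [← Matrix.mul_apply, one_mul]
  have hδblock : δK = Matrix.fromBlocks 1 0 δK.toBlocks₂₁ δK.toBlocks₂₂ := by
    ext (i | i) (j | j)
    · rw [Matrix.fromBlocks_apply₁₁]
      have := hδrow (Sum.inl ())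
      rw [Matrix.one_apply_eq] at this
      rw [show i = () from rfl, show j = () from rfl, this, Matrix.one_apply_eq]
    · rw [Matrix.fromBlocks_apply₁₂]
      have := hδrow (Sum.inr j)
      rw [Matrix.one_apply_ne (by simp)] at this
      rw [show i = () from rfl, this]
      rfl
    · rfl
    · rfl
  have hdetδ : δK.toBlocks₂₂.det ≠ 0 := by
    have h2 : (γ.map π).det * δK.det = 1 := by rw [← Matrix.det_mul, h1, Matrix.det_one]
    have h3 : δK.det = δK.toBlocks₂₂.det := by
      conv_lhs => rw [hδblock]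
      rw [Matrix.det_fromBlocks_zero₁₂, Matrix.det_one, one_mul]
    rw [h3] at h2
    exact right_ne_zero_of_mul (by rw [h2]; exact one_ne_zero)
  obtain ⟨H, hH1, hH2⟩ := lift_matrix π hπ hu r _ hdetδ
  have hξ : ∀ i j, ∃ x : RX C, π x = δK.toBlocks₂₁ i j := fun i j => hπ _
  choose ξ hξ using hξ
  obtain ⟨δ, hδ⟩ : ∃ δ : Matrix (Unit ⊕ Fin r) (Unit ⊕ Fin r) (RX C),
      δ = Matrix.fromBlocks 1 0 (Matrix.of ξ) H := ⟨_, rfl⟩
  refine ⟨δ, ?_, ?_, ?_⟩
  · rw [hδ, Matrix.det_fromBlocks_zero₁₂, Matrix.det_one, one_mul]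
    exact hH1
  · rw [hδ]
    rintro (j | j)
    · rw [Matrix.fromBlocks_apply₁₁, show j = () from rfl, Matrix.one_apply_eq, Matrix.one_apply_eq]
    · rw [Matrix.fromBlocks_apply₁₂, Matrix.one_apply_ne (by simp)]
      rfl
  · have h2 : δ.map π = δK := by
      rw [hδ, Matrix.fromBlocks_map, Matrix.map_one _ (map_zero π) (map_one π), Matrix.map_zero _ (map_zero π), hH2]
      rw [hδblock]
      congr 1
      ext i j
      exact hξ i j
    have h3 : (γ * δ).map π = 1 := by
      rw [Matrix.map_mul, h2, h1]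
    intro i j
    rw [← Ideal.Quotient.eq]
    have h4 := congrFun (congrFun h3 i) j
    have h5 : π ((γ * δ) i j) =
        (1 : Matrix (Unit ⊕ Fin r) (Unit ⊕ Fin r) (RX C ⧸ mRX C)) i j := h4
    show π ((γ * δ) i j) = π _
    rw [h5, Matrix.one_apply, Matrix.one_apply]
    split_ifs
    · exact (map_one π).symm
    · exact (map_zero π).symm

end Pool.Agent.Helper91.FU
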