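import Pool.Agent.Helper91.FU.M_P5

/-!
# Project FU (MP_b1e6de_al), modules P6 and P7: Horrocks' theorem, local and affine
-/

set_option autoImplicit false

namespace Pool.Agent.Helper91.FU

open Polynomial Pool.Agent.Helper75.FU Pool.Agent.Helper91.GU

universe u

theorem row_eta {A : Type u} {r : ℕ} (v : Unit ⊕ Fin r → A) :
    row (v (Sum.inl ())) (fun i => v (Sum.inr i)) = v := by
  funext j
  rcases j with j | j
  · rfl
  · rfl

theorem mp_one_zero {A B : Type u} [CommRing A] [CommRing B] (φ : A →+* B) (r : ℕ) :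
    mp φ (row 1 0 : Unit ⊕ Fin r → A) = row 1 0 := by
  funext j
  rcases j with j | j
  · exact map_one φ
  · exact map_zero φ

theorem row_single {A : Type u} [CommRing A] (r : ℕ) :
    (row 1 0 : Unit ⊕ Fin r → A) = Pi.single (Sum.inl ()) 1 := by
  funext j
  rcases j with j | j
  · rw [show j = () from rfl, Pi.single_eq_same]
    rfl
  · rw [Pi.single_eq_of_ne (by simp)]
    rfl

theorem mp_comp {A B D : Type u} [CommRing A] [CommRing B] [CommRing D] (φ : A →+* B) (ψ : B →+* D)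
    {n : Type} (v : n → A) : mp ψ (mp φ v) = mp (ψ.comp φ) v := rfl

/-- a constant row which is unimodular over the polynomial ring of a local ring is equivalent to
the standard row -/
theorem const_row (hB7 : StB7.{u}) (hH4 : StH4.{u}) {L : Type u} [CommRing L] [IsLocalRing L] {r : ℕ}
    (w : Unit ⊕ Fin r → L) (hw : Um w) : REq (mp (Polynomial.C : L →+* L[X]) w) (row 1 0) := by
  have h1 : REq (row (w (Sum.inl ())) (fun i => w (Sum.inr i))) (row 1 0) := by
    apply hH4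
    rw [row_eta]
    exact hw
  rw [row_eta] at h1
  have h2 := ((hB7 L L[X] Polynomial.C).1 (Unit ⊕ Fin r)).2.2.2.2.2.1 w (row 1 0) h1
  rw [mp_one_zero] at h2
  exact h2

theorem hP6 (hB0 : Pool.Agent.Helper91.GU.StB0.{u}) (hB7 : Pool.Agent.Helper91.GU.StB7.{u})
    (hS0 : Pool.Agent.Helper91.GU.StS0.{u}) (hH4 : Pool.Agent.Helper91.GU.StH4.{u})
    (hP4 : StP4.{u}) (hP5 : StP5.{u}) : StP6.{u} := by
  intro C _ _ r hr a c hum hreq
  obtain ⟨k, hk, res, hres, hker⟩ : ∃ (k : Type u) (_ : Field k) (res : C →+* k),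
      Function.Surjective res ∧ RingHom.ker res = IsLocalRing.maximalIdeal C :=
    ⟨IsLocalRing.ResidueField C, inferInstance, IsLocalRing.residue C, IsLocalRing.residue_surjective,
      IsLocalRing.ker_residue⟩
  have hφs : Function.Surjective (mapRingHom res) := Polynomial.map_surjective res hres
  obtain ⟨B1, B2, B3, B4, B5, B6, B7⟩ := (hB7 C[X] C[X] (RingHom.id _)).1 (Unit ⊕ Fin r)
  -- make the row congruent to the standard row
  have hum' : Um (mp (mapRingHom res) (row a c)) :=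
    ((hB7 C[X] k[X] (mapRingHom res)).1 (Unit ⊕ Fin r)).2.2.2.2.2.2 _ hum
  obtain ⟨e, he, hve⟩ := hS0 k (Unit ⊕ Fin r) (Sum.inl ()) ⟨Sum.inr ⟨0, hr⟩, by simp⟩ _ hum'
  obtain ⟨e', he', hee'⟩ := (hB0 C[X] k[X] (mapRingHom res) (Unit ⊕ Fin r)).2.2.2.2.2.2 hφs e he
  obtain ⟨v, hv⟩ : ∃ v, v = Matrix.vecMul (row a c) e' := ⟨_, rfl⟩
  have hrv : REq (row a c) v := B4 _ _ ⟨e', he', hv.symm⟩
  have hvφ : mp (mapRingHom res) v = Pi.single (Sum.inl ()) 1 := by
    rw [← hve, hv, ← hee']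
    funext j
    show (mapRingHom res) (Matrix.vecMul (row a c) e' j) = _
    exact RingHom.map_vecMul (mapRingHom res) e' (row a c) j
  suffices hmain : REq v (row 1 0) from B3 _ _ _ hrv hmain
  have hvum : Um v := B5 _ _ hrv hum
  have hvreq : REq (mp (toRX C) v) (row 1 0) := by
    obtain ⟨D1, D2, D3, D4, D5, D6, D7⟩ := (hB7 C[X] (RX C) (toRX C)).1 (Unit ⊕ Fin r)
    obtain ⟨E1, E2, E3, E4, E5, E6, E7⟩ := (hB7 (RX C) (RX C) (RingHom.id _)).1 (Unit ⊕ Fin r)
    exact E3 _ _ _ (E2 _ _ (D6 _ _ hrv)) hreq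
  obtain ⟨γ, hγ, hγv⟩ := hvreq
  -- the row is congruent to the standard row modulo the maximal ideal
  have hcong : ∀ j, toRX C (v j) - (1 : Matrix (Unit ⊕ Fin r) (Unit ⊕ Fin r) (RX C)) (Sum.inl ()) j ∈
      mRX C := by
    intro j
    have h1 : (mapRingHom res) (v j) = (mapRingHom res)
        ((1 : Matrix (Unit ⊕ Fin r) (Unit ⊕ Fin r) C[X]) (Sum.inl ()) j) := by
      have h2 : (mapRingHom res) (v j) = (Pi.single (Sum.inl ()) 1 : Unit ⊕ Fin r → k[X]) j :=
        congrFun hvφ j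
      rw [h2, Matrix.one_apply]
      rcases j with j | j
      · rw [show j = () from rfl, Pi.single_eq_same, if_pos rfl, map_one]
      · rw [Pi.single_eq_of_ne (by simp), if_neg (by simp), map_zero]
    have h3 : v j - (1 : Matrix (Unit ⊕ Fin r) (Unit ⊕ Fin r) C[X]) (Sum.inl ()) j ∈
        (IsLocalRing.maximalIdeal C).map (Polynomial.C) := by
      rw [← hker, ← Polynomial.ker_mapRingHom, RingHom.mem_ker, map_sub, h1, sub_self]
    have h4 := mapC_le _ h3
    rw [map_sub] at h4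
    have h5 : toRX C ((1 : Matrix (Unit ⊕ Fin r) (Unit ⊕ Fin r) C[X]) (Sum.inl ()) j) =
        (1 : Matrix (Unit ⊕ Fin r) (Unit ⊕ Fin r) (RX C)) (Sum.inl ()) j := by
      rw [Matrix.one_apply, Matrix.one_apply]
      split_ifs
      · exact map_one _
      · exact map_zero _
    rw [h5] at h4
    exact h4
  have hγrow : ∀ j, γ (Sum.inl ()) j - (1 : Matrix (Unit ⊕ Fin r) (Unit ⊕ Fin r) (RX C)) (Sum.inl ()) j ∈
      mRX C := by
    intro j
    have h1 : γ (Sum.inl ()) j = ∑ i, (1 : Matrix (Unit ⊕ Fin r) (Unit ⊕ Fin r) (RX C)) (Sum.inl ()) i * γ i j := by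
      rw [← Matrix.mul_apply, one_mul]
    have h2 : (1 : Matrix (Unit ⊕ Fin r) (Unit ⊕ Fin r) (RX C)) (Sum.inl ()) j =
        ∑ i, toRX C (v i) * γ i j := by
      have h3 := congrFun hγv j
      have h4 : Matrix.vecMul (mp (toRX C) v) γ j = ∑ i, toRX C (v i) * γ i j := rfl
      rw [← h4, h3, row_single, Matrix.one_apply]
      rcases j with j | j
      · rw [show j = () from rfl, Pi.single_eq_same, if_pos rfl]
      · rw [Pi.single_eq_of_ne (by simp), if_neg (by simp)]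
    rw [h1, h2, ← Finset.sum_sub_distrib]
    refine Ideal.sum_mem _ fun i _ => ?_
    rw [← sub_mul]
    refine Ideal.mul_mem_right _ _ ?_
    rw [← Ideal.neg_mem_iff, neg_sub]
    exact hcong i
  obtain ⟨δ, hδ, hδrow, hγδ⟩ := hP5 C r γ hγ hγrow
  obtain ⟨w, hw⟩ := hP4 C (Unit ⊕ Fin r) (Sum.inl ()) v (γ * δ)
    (by rw [Matrix.det_mul]; exact hγ.mul hδ) hγδ
    (by
      have h1 : Matrix.vecMul (fun j => toRX C (v j)) (γ * δ) =
          Matrix.vecMul (Matrix.vecMul (mp (toRX C) v) γ) δ := by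
        rw [Matrix.vecMul_vecMul]
        rfl
      rw [h1, hγv, row_single, Matrix.single_one_vecMul]
      funext j
      show δ (Sum.inl ()) j = _
      rw [hδrow j, Matrix.one_apply]
      rcases j with j | j
      · rw [show j = () from rfl, Pi.single_eq_same, if_pos rfl]
      · rw [Pi.single_eq_of_ne (by simp), if_neg (by simp)])
  have hw' : Um (mp (Polynomial.C : C →+* C[X]) w) := B5 _ _ hw hvum
  have hwum : Um w := by
    have h1 := ((hB7 C[X] C (evalRingHom 0)).1 (Unit ⊕ Fin r)).2.2.2.2.2.2 _ hw'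
    have h2 : mp (evalRingHom (0 : C)) (mp (Polynomial.C : C →+* C[X]) w) = w := by
      funext j
      show eval 0 (Polynomial.C (w j)) = w j
      exact eval_C
    rw [h2] at h1
    exact h1
  exact B3 _ _ _ hw (const_row hB7 hH4 w hwum)

theorem mapmon {C L : Type u} [CommRing C] [CommRing L] (f : C →+* L) (y : monS C) :
    IsUnit (((toRX L).comp (mapRingHom f)) (y : C[X])) := by
  have hy' : (y : C[X]).Monic := y.2
  have h := unit_monic ((y : C[X]).map f) (hy'.map f)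
  rw [RingHom.comp_apply, coe_mapRingHom]
  exact h

theorem exists_psi {C L : Type u} [CommRing C] [CommRing L] (f : C →+* L) :
    ∃ Ψ : RX C →+* RX L, Ψ.comp (toRX C) = (toRX L).comp (mapRingHom f) :=
  ⟨IsLocalization.lift (M := monS C) (mapmon f), IsLocalization.lift_comp (mapmon f)⟩

theorem hP7 (hA5 : Pool.Agent.Helper91.GU.StA5.{u}) (hB7 : Pool.Agent.Helper91.GU.StB7.{u})
    (hH4 : Pool.Agent.Helper91.GU.StH4.{u}) (hP6 : StP6.{u}) : StP7.{u} := by
  intro C _ r hr v hv hreq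
  apply hA5 C (Unit ⊕ Fin r) v
  intro 𝔫 _
  obtain ⟨L, _, _, f, hf⟩ : ∃ (L : Type u) (_ : CommRing L) (_ : IsLocalRing L) (f : C →+* L),
      (REq (fun j => (v j).map f) (fun j => Polynomial.C (f ((v j).eval 0))) →
      REq (fun j => (v j).map (algebraMap C (Localization.AtPrime 𝔫)))
        (fun j => Polynomial.C (algebraMap C (Localization.AtPrime 𝔫) ((v j).eval 0)))) :=
    ⟨Localization.AtPrime 𝔫, inferInstance, inferInstance, algebraMap C (Localization.AtPrime 𝔫), id⟩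
  apply hf
  obtain ⟨B1, B2, B3, B4, B5, B6, B7⟩ := (hB7 C[X] L[X] (mapRingHom f)).1 (Unit ⊕ Fin r)
  obtain ⟨F1, F2, F3, F4, F5, F6, F7⟩ := (hB7 L[X] L[X] (RingHom.id _)).1 (Unit ⊕ Fin r)
  obtain ⟨Ψ, hΨ⟩ := exists_psi f
  have h1 : REq (mp (toRX L) (mp (mapRingHom f) v)) (row 1 0) := by
    have h2 := ((hB7 (RX C) (RX L) Ψ).1 (Unit ⊕ Fin r)).2.2.2.2.2.1 _ _ hreq
    rw [mp_one_zero, mp_comp, hΨ, ← mp_comp] at h2
    exact h2
  have h2 : Um (mp (mapRingHom f) v) := B7 _ hv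
  have h3 : REq (mp (mapRingHom f) v) (row 1 0) := by
    have h4 := hP6 L r hr (mp (mapRingHom f) v (Sum.inl ())) (fun i => mp (mapRingHom f) v (Sum.inr i))
    rw [row_eta] at h4
    exact h4 h2 h1
  have h4 : REq (fun j => Polynomial.C (f ((v j).eval 0))) (row 1 0) := by
    have h5 : Um (mp (f.comp (evalRingHom (0 : C))) v) :=
      ((hB7 C[X] L (f.comp (evalRingHom (0 : C)))).1 (Unit ⊕ Fin r)).2.2.2.2.2.2 _ hv
    exact const_row hB7 hH4 _ h5
  exact F3 _ _ _ h3 (F2 _ _ h4)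

end Pool.Agent.Helper91.FU
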